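import Mathlib

set_option autoImplicit false

namespace Pool.Agent.H.C044

open Finset

variable {U V : Type}

def Pack (G : SimpleGraph U) (E : V → V → Prop) (S : Finset V) (t : ℕ) : Prop :=
  ∃ f : Fin t × U → V, Function.Injective f ∧ (∀ p, f p ∈ S) ∧
    ∀ j u v, G.Adj u v → E (f (j, u)) (f (j, v))

theorem pack_of {G : SimpleGraph U} {E : V → V → Prop} {S : Finset V} (ι : Type) [Fintype ι]
    (f : ι × U → V) (hi : Function.Injective f) (hm : ∀ p, f p ∈ S)
    (hh : ∀ j u v, G.Adj u v → E (f (j, u)) (f (j, v))) : Pack G E S (Fintype.card ι) := by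
  let e := (Fintype.equivFin ι).symm
  refine ⟨fun p => f (e p.1, p.2), ?_, fun p => hm _, fun j u v h => hh _ u v h⟩
  intro p q h
  have := hi h
  simp only [Prod.mk.injEq, EmbeddingLike.apply_eq_iff_eq] at this
  exact Prod.ext this.1 this.2

theorem Pack.mono {G : SimpleGraph U} {E : V → V → Prop} {S S' : Finset V} {t t' : ℕ}
    (h : Pack G E S t) (hS : S ⊆ S') (ht : t' ≤ t) : Pack G E S' t' := by
  obtain ⟨f, hi, hm, hh⟩ := h
  refine ⟨fun p => f (Fin.castLE ht p.1, p.2), ?_, fun p => hS (hm _), fun j u v h => hh _ u v h⟩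
  intro p q h
  have := hi h
  simp only [Prod.mk.injEq, Fin.castLE_inj] at this
  exact Prod.ext this.1 this.2

theorem pack_zero {G : SimpleGraph U} {E : V → V → Prop} {S : Finset V} : Pack G E S 0 :=
  ⟨fun p => p.1.elim0, fun p => p.1.elim0, fun p => p.1.elim0, fun j => j.elim0⟩

theorem Pack.union [DecidableEq V] {G : SimpleGraph U} {E : V → V → Prop} {S T : Finset V}
    {s t : ℕ} (h1 : Pack G E S s) (h2 : Pack G E T t) (hd : Disjoint S T) :
    Pack G E (S ∪ T) (s + t) := by
  obtain ⟨f, hi, hm, hh⟩ := h1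
  obtain ⟨g, gi, gm, gh⟩ := h2
  have := pack_of (G := G) (E := E) (S := S ∪ T) (Fin s ⊕ Fin t)
    (fun p => Sum.elim (fun j => f (j, p.2)) (fun j => g (j, p.2)) p.1) ?_ ?_ ?_
  · simpa using this
  · rintro ⟨j | j, u⟩ ⟨j' | j', u'⟩ h
    · simp only [Sum.elim_inl] at h
      have := hi h
      simp only [Prod.mk.injEq] at this
      rw [this.1, this.2]
    · simp only [Sum.elim_inl, Sum.elim_inr] at h
      exact absurd (h ▸ gm _) (disjoint_left.1 hd (hm _))
    · simp only [Sum.elim_inl, Sum.elim_inr] at h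
      exact absurd (h ▸ gm _) (disjoint_left.1 hd (hm _))
    · simp only [Sum.elim_inr] at h
      have := gi h
      simp only [Prod.mk.injEq] at this
      rw [this.1, this.2]
  · rintro ⟨j | j, u⟩
    · exact mem_union_left _ (hm _)
    · exact mem_union_right _ (gm _)
  · rintro (j | j) u v h
    · exact hh _ _ _ h
    · exact gh _ _ _ h

def Cl (c : V → V → Bool) (β : Bool) (X : Finset V) : Prop :=
  ∀ x ∈ X, ∀ y ∈ X, x ≠ y → c x y = β

def Bt (c : V → V → Bool) (β : Bool) (X Y : Finset V) : Prop :=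
  ∀ x ∈ X, ∀ y ∈ Y, c x y = β

theorem Cl.mono {c : V → V → Bool} {β : Bool} {X Y : Finset V} (h : Cl c β X) (hs : Y ⊆ X) :
    Cl c β Y := fun x hx y hy => h x (hs hx) y (hs hy)

theorem Bt.mono {c : V → V → Bool} {β : Bool} {X Y X' Y' : Finset V} (h : Bt c β X Y)
    (hx : X' ⊆ X) (hy : Y' ⊆ Y) : Bt c β X' Y' := fun x a y b => h x (hx a) y (hy b)

theorem ramsey (a b : ℕ) : ∃ ρ : ℕ, ∀ (V : Type) [DecidableEq V] (c : V → V → Bool),
    (∀ x y, c x y = c y x) → ∀ S : Finset V, ρ ≤ S.card →
      (∃ X ⊆ S, X.card = a ∧ Cl c true X) ∨ (∃ X ⊆ S, X.card = b ∧ Cl c false X) := by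
  induction a generalizing b with
  | zero => exact ⟨0, fun V _ c _ S _ => Or.inl ⟨∅, empty_subset _, rfl, by simp [Cl]⟩⟩
  | succ a iha =>
    induction b with
    | zero => exact ⟨0, fun V _ c _ S _ => Or.inr ⟨∅, empty_subset _, rfl, by simp [Cl]⟩⟩
    | succ b ihb =>
      obtain ⟨r1, h1⟩ := iha (b + 1)
      obtain ⟨r2, h2⟩ := ihb
      refine ⟨r1 + r2 + 1, fun V _ c hc S hS => ?_⟩
      obtain ⟨v, hv⟩ : S.Nonempty := card_pos.1 (by omega)
      have hsum := card_filter_add_card_filter_not (s := S.erase v) (fun y => c v y = true)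
      rw [card_erase_of_mem hv] at hsum
      have ext : ∀ (β : Bool) (X : Finset V), X ⊆ (S.erase v).filter (fun y => c v y = β) →
          Cl c β X → insert v X ⊆ S ∧ (insert v X).card = X.card + 1 ∧ Cl c β (insert v X) := by
        intro β X hX hcl
        refine ⟨?_, ?_, ?_⟩
        · intro x hx
          rcases mem_insert.1 hx with rfl | hx
          · exact hv
          · exact mem_of_mem_erase (mem_filter.1 (hX hx)).1
        · apply card_insert_of_notMem
          intro h
          have := (mem_filter.1 (hX h)).1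
          simp at this
        · intro x hx y hy hxy
          rcases mem_insert.1 hx with rfl | hx' <;> rcases mem_insert.1 hy with rfl | hy'
          · exact absurd rfl hxy
          · exact (mem_filter.1 (hX hy')).2
          · rw [hc]; exact (mem_filter.1 (hX hx')).2
          · exact hcl x hx' y hy' hxy
      have sub : ∀ (Q : V → Prop) [DecidablePred Q], (S.erase v).filter Q ⊆ S :=
        fun Q _ => (filter_subset _ _).trans (erase_subset _ _)
      by_cases h : r1 ≤ ((S.erase v).filter (fun y => c v y = true)).card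
      · rcases h1 V c hc _ h with ⟨X, hX, hk, hcl⟩ | ⟨X, hX, hk, hcl⟩
        · obtain ⟨p, q, r⟩ := ext true X hX hcl
          exact Or.inl ⟨_, p, by omega, r⟩
        · exact Or.inr ⟨X, hX.trans (sub _), hk, hcl⟩
      · have e : (S.erase v).filter (fun y => ¬ c v y = true) =
            (S.erase v).filter (fun y => c v y = false) := by
          apply filter_congr; intro x _; simp
        rw [e] at hsum
        rcases h2 V c hc ((S.erase v).filter (fun y => c v y = false)) (by omega) with
          ⟨X, hX, hk, hcl⟩ | ⟨X, hX, hk, hcl⟩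
        · exact Or.inl ⟨X, hX.trans (sub _), hk, hcl⟩
        · obtain ⟨p, q, r⟩ := ext false X hX hcl
          exact Or.inr ⟨_, p, by omega, r⟩

theorem homog [DecidableEq V] (c : V → V → Bool) (L : ℕ) (R : Finset V) :
    ∀ B : Finset V, 2 ^ R.card * L ≤ B.card →
      ∃ B' ⊆ B, L ≤ B'.card ∧ ∀ x ∈ R, ∃ β, ∀ y ∈ B', c x y = β := by
  induction R using Finset.induction_on with
  | empty => intro B h; exact ⟨B, Subset.refl _, by simpa using h, by simp⟩
  | insert v R hv ih =>
    intro B h
    rw [card_insert_of_notMem hv, pow_succ] at h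
    have hsum := card_filter_add_card_filter_not (s := B) (fun y => c v y = true)
    have : ∃ β, 2 ^ R.card * L ≤ (B.filter (fun y => c v y = β)).card := by
      by_cases h' : 2 ^ R.card * L ≤ (B.filter (fun y => c v y = true)).card
      · exact ⟨true, h'⟩
      · have e : B.filter (fun y => ¬ c v y = true) = B.filter (fun y => c v y = false) := by
          apply filter_congr; intro x _; simp
        rw [e] at hsum
        exact ⟨false, by nlinarith⟩
    obtain ⟨β, hβ⟩ := this
    obtain ⟨B', h1, h2, h3⟩ := ih _ hβ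
    refine ⟨B', h1.trans (filter_subset _ _), h2, ?_⟩
    intro x hx
    rcases mem_insert.1 hx with rfl | hx
    · exact ⟨β, fun y hy => (mem_filter.1 (h1 hy)).2⟩
    · exact h3 x hx

theorem bip [DecidableEq V] (c : V → V → Bool) (L : ℕ) (R B : Finset V)
    (hR : 2 * L ≤ R.card) (hB : 2 ^ (2 * L) * L ≤ B.card) :
    ∃ R' ⊆ R, ∃ B' ⊆ B, R'.card = L ∧ B'.card = L ∧ ∃ β, Bt c β R' B' := by
  classical
  obtain ⟨R1, hR1, hc1⟩ := exists_subset_card_eq hR
  obtain ⟨B1, hB1, hL, hx⟩ := homog c L R1 B (by rw [hc1]; exact hB)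
  obtain ⟨B', hB', hc'⟩ := exists_subset_card_eq hL
  have hsum := card_filter_add_card_filter_not (s := R1) (fun x => ∀ y ∈ B1, c x y = true)
  by_cases h : L ≤ (R1.filter (fun x => ∀ y ∈ B1, c x y = true)).card
  · obtain ⟨R', h1, h2⟩ := exists_subset_card_eq h
    exact ⟨R', (h1.trans (filter_subset _ _)).trans hR1, B', hB'.trans hB1, h2, hc', true,
      fun x a y b => (mem_filter.1 (h1 a)).2 y (hB' b)⟩
  · have h' : L ≤ (R1.filter (fun x => ¬ ∀ y ∈ B1, c x y = true)).card := by omega
    obtain ⟨R', h1, h2⟩ := exists_subset_card_eq h'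
    refine ⟨R', (h1.trans (filter_subset _ _)).trans hR1, B', hB'.trans hB1, h2, hc', false,
      fun x a y b => ?_⟩
    obtain ⟨hx1, hx2⟩ := mem_filter.1 (h1 a)
    obtain ⟨β, hβ⟩ := hx x hx1
    cases β
    · exact hβ y (hB' b)
    · exact absurd hβ hx2

inductive Lab (V : Type) : Type
  | a : Lab V
  | b : Lab V
  | c (v : V) : Lab V
  deriving DecidableEq

def col (c : V → V → Bool) : Lab V → Lab V → Bool
  | .a, .a => true
  | .a, .b => false
  | .b, .a => false
  | .b, .b => false
  | .a, .c _ => false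
  | .c _, .a => false
  | .b, .c _ => true
  | .c _, .b => true
  | .c u, .c v => c u v

theorem col_symm {c : V → V → Bool} (hc : ∀ x y, c x y = c y x) (x y : Lab V) :
    col c x y = col c y x := by
  cases x <;> cases y <;> simp [col, hc]

def Ok {P : Type} (C : Finset V) (l : P → Lab V) : Prop :=
  (∀ p v, l p = .c v → v ∈ C) ∧ ∀ p q v, l p = .c v → l q = .c v → p = q

theorem realize [DecidableEq V] {P : Type} [Fintype P] {R B C : Finset V} (l : P → Lab V)
    (hl : Ok C l) (hRB : Disjoint R B) (hCR : Disjoint C R) (hCB : Disjoint C B)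
    (ha : (univ.filter (fun p => l p = .a)).card ≤ R.card)
    (hb : (univ.filter (fun p => l p = .b)).card ≤ B.card) :
    ∃ f : P → V, Function.Injective f ∧ (∀ p, l p = .a → f p ∈ R) ∧ (∀ p, l p = .b → f p ∈ B) ∧
      ∀ p v, l p = .c v → f p = v := by
  obtain ⟨eA, hA⟩ := Function.Embedding.exists_of_card_le_finset
    (α := {p // l p = .a}) (s := R) (by rw [Fintype.card_subtype]; exact ha)
  obtain ⟨eB, hB⟩ := Function.Embedding.exists_of_card_le_finset
    (α := {p // l p = .b}) (s := B) (by rw [Fintype.card_subtype]; exact hb)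
  have hA' : ∀ x, eA x ∈ R := fun x => hA ⟨x, rfl⟩
  have hB' : ∀ x, eB x ∈ B := fun x => hB ⟨x, rfl⟩
  have ex : ∀ p, ∃ v : V, (∀ h : l p = .a, v = eA ⟨p, h⟩) ∧ (∀ h : l p = .b, v = eB ⟨p, h⟩) ∧
      ∀ w, l p = .c w → v = w := by
    intro p
    by_cases h : l p = .a
    · exact ⟨eA ⟨p, h⟩, fun _ => rfl, fun h' => by simp [h] at h', fun w h' => by simp [h] at h'⟩
    by_cases h2 : l p = .b
    · exact ⟨eB ⟨p, h2⟩, fun h' => absurd h' h, fun _ => rfl, fun w h' => by simp [h2] at h'⟩
    obtain ⟨v, hv⟩ : ∃ v, l p = .c v := by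
      cases h3 : l p with
      | a => exact absurd h3 h
      | b => exact absurd h3 h2
      | c v => exact ⟨v, rfl⟩
    exact ⟨v, fun h' => absurd h' h, fun h' => absurd h' h2,
        fun w h' => by rw [hv] at h'; simpa using h'⟩
  choose f f1 f2 f3 using ex
  have g1 : ∀ p, l p = .a → f p ∈ R := fun p h => by rw [f1 p h]; exact hA' _
  have g2 : ∀ p, l p = .b → f p ∈ B := fun p h => by rw [f2 p h]; exact hB' _
  have g3 : ∀ p v, l p = .c v → f p ∈ C := fun p v h => by rw [f3 p v h]; exact hl.1 p v h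
  refine ⟨f, ?_, g1, g2, f3⟩
  intro p q h
  cases hp : l p with
  | a =>
    cases hq : l q with
    | a =>
      rw [f1 p hp, f1 q hq] at h
      exact congrArg Subtype.val (eA.injective h)
    | b => exact absurd (h ▸ g2 q hq) (disjoint_left.1 hRB (g1 p hp))
    | c v => exact absurd (h ▸ g1 p hp) (disjoint_left.1 hCR (g3 q v hq))
  | b =>
    cases hq : l q with
    | a => exact absurd (h ▸ g2 p hp) (disjoint_left.1 hRB (g1 q hq))
    | b =>
      rw [f2 p hp, f2 q hq] at h
      exact congrArg Subtype.val (eB.injective h)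
    | c v => exact absurd (h ▸ g2 p hp) (disjoint_left.1 hCB (g3 q v hq))
  | c w =>
    cases hq : l q with
    | a => exact absurd (h ▸ g1 q hq) (disjoint_left.1 hCR (g3 p w hp))
    | b => exact absurd (h ▸ g2 q hq) (disjoint_left.1 hCB (g3 p w hp))
    | c v =>
      rw [f3 p w hp, f3 q v hq] at h
      subst h
      exact hl.2 p q w hp hq

def Good (c : V → V → Bool) (R B C : Finset V) : Prop :=
  Disjoint R B ∧ Disjoint C R ∧ Disjoint C B ∧ Cl c true R ∧ Cl c false B ∧ Bt c false R B ∧
    Bt c false C R ∧ Bt c true C B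

theorem Good.mono {c : V → V → Bool} {R B C R' B' C' : Finset V} (h : Good c R B C)
    (h1 : R' ⊆ R) (h2 : B' ⊆ B) (h3 : C' ⊆ C) : Good c R' B' C' := by
  obtain ⟨a1, a2, a3, a4, a5, a6, a7, a8⟩ := h
  exact ⟨a1.mono h1 h2, a2.mono h3 h1, a3.mono h3 h2, a4.mono h1, a5.mono h2, a6.mono h1 h2,
    a7.mono h3 h1, a8.mono h3 h2⟩

theorem realize_col [DecidableEq V] {P : Type} [Fintype P] {c : V → V → Bool}
    (hc : ∀ x y, c x y = c y x) {R B C : Finset V} (hG : Good c R B C) (l : P → Lab V)
    (hl : Ok C l)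
    (ha : (univ.filter (fun p => l p = .a)).card ≤ R.card)
    (hb : (univ.filter (fun p => l p = .b)).card ≤ B.card) :
    ∃ f : P → V, Function.Injective f ∧ (∀ p, f p ∈ R ∪ B ∪ C) ∧
      (∀ p v, l p = .c v → f p = v) ∧ ∀ p q, p ≠ q → c (f p) (f q) = col c (l p) (l q) := by
  obtain ⟨a1, a2, a3, a4, a5, a6, a7, a8⟩ := hG
  obtain ⟨f, hi, g1, g2, f3⟩ := realize l hl a1 a2 a3 ha hb
  have g3 : ∀ p v, l p = .c v → f p ∈ C := fun p v h => by rw [f3 p v h]; exact hl.1 p v h
  refine ⟨f, hi, ?_, f3, ?_⟩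
  · intro p
    cases hp : l p with
    | a => simp [g1 p hp]
    | b => simp [g2 p hp]
    | c v => simp [g3 p v hp]
  · intro p q hpq
    have hne : f p ≠ f q := fun h => hpq (hi h)
    cases hp : l p with
    | a =>
      cases hq : l q with
      | a => exact a4 _ (g1 p hp) _ (g1 q hq) hne
      | b => exact a6 _ (g1 p hp) _ (g2 q hq)
      | c v => rw [hc]; exact a7 _ (g3 q v hq) _ (g1 p hp)
    | b =>
      cases hq : l q with
      | a => rw [hc]; exact a6 _ (g1 q hq) _ (g2 p hp)
      | b => exact a5 _ (g2 p hp) _ (g2 q hq) hne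
      | c v => rw [hc]; exact a8 _ (g3 q v hq) _ (g2 p hp)
    | c w =>
      cases hq : l q with
      | a => exact a7 _ (g3 p w hp) _ (g1 q hq)
      | b => exact a8 _ (g3 p w hp) _ (g2 q hq)
      | c v => rw [f3 p w hp, f3 q v hq]; rfl

theorem cnt_prod {ι : Type} [Fintype ι] [Fintype U] (Q : ι × U → Prop) [DecidablePred Q] :
    (univ.filter Q).card = ∑ j, (univ.filter (fun u => Q (j, u))).card := by
  simp_rw [card_filter]
  rw [Fintype.sum_prod_type]

theorem pack_clique [Fintype U] {G : SimpleGraph U} {c : V → V → Bool} {β : Bool} {X : Finset V}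
    (h : Cl c β X) {t : ℕ} (ht : Fintype.card U * t ≤ X.card) :
    Pack G (fun x y => c x y = β) X t := by
  obtain ⟨e, he⟩ := Function.Embedding.exists_of_card_le_finset
    (α := Fin t × U) (s := X) (by simpa [mul_comm] using ht)
  have he' : ∀ x, e x ∈ X := fun x => he ⟨x, rfl⟩
  refine ⟨e, e.injective, he', fun j u v huv => h _ (he' _) _ (he' _) ?_⟩
  intro h'
  have := e.injective h'
  simp only [Prod.mk.injEq, true_and] at this
  exact huv.ne this

theorem pack_split [Fintype U] [DecidableEq U] [DecidableEq V] {G : SimpleGraph U}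
    {c : V → V → Bool} (hc : ∀ x y, c x y = c y x) {β : Bool} {I : Finset U}
    (hI : ∀ u ∈ I, ∀ v ∈ I, ¬ G.Adj u v) {h : ℕ} (hh : I.card + h = Fintype.card U)
    {X Y : Finset V} (hd : Disjoint X Y) (hY : Cl c β Y) (hXY : Bt c β X Y) {t : ℕ}
    (h1 : I.card * t ≤ X.card) (h2 : h * t ≤ Y.card) :
    Pack G (fun x y => c x y = β) (X ∪ Y) t := by
  obtain ⟨f, hi, g1, g2, -⟩ := realize (R := X) (B := Y) (C := ∅)
    (fun p : Fin t × U => if p.2 ∈ I then (Lab.a : Lab V) else Lab.b)
    ⟨fun p v h => by beta_reduce at h; split_ifs at h,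
      fun p q v h => by beta_reduce at h; split_ifs at h⟩ hd (by simp) (by simp)
    (by
      rw [cnt_prod]
      have : ∀ j : Fin t, (univ.filter (fun u : U =>
          (if (j, u).2 ∈ I then (Lab.a : Lab V) else Lab.b) = Lab.a)).card = I.card := by
        intro j; congr 1; ext u; by_cases hu : u ∈ I <;> simp [hu]
      simp only [this, sum_const, card_univ, Fintype.card_fin, smul_eq_mul]
      rw [mul_comm]; exact h1)
    (by
      rw [cnt_prod]
      have : ∀ j : Fin t, (univ.filter (fun u : U =>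
          (if (j, u).2 ∈ I then (Lab.a : Lab V) else Lab.b) = Lab.b)).card = h := by
        intro j
        have : (univ.filter (fun u : U =>
          (if (j, u).2 ∈ I then (Lab.a : Lab V) else Lab.b) = Lab.b)) = Iᶜ := by
          ext u; by_cases hu : u ∈ I <;> simp [hu]
        rw [this, card_compl]; omega
      simp only [this, sum_const, card_univ, Fintype.card_fin, smul_eq_mul]
      rw [mul_comm]; exact h2)
  have k1 : ∀ p : Fin t × U, p.2 ∈ I → f p ∈ X := fun p hp => g1 p (by simp [hp])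
  have k2 : ∀ p : Fin t × U, p.2 ∉ I → f p ∈ Y := fun p hp => g2 p (by simp [hp])
  refine ⟨f, hi, fun p => ?_, fun j u v huv => ?_⟩
  · by_cases hp : p.2 ∈ I
    · exact mem_union_left _ (k1 p hp)
    · exact mem_union_right _ (k2 p hp)
  · by_cases hu : u ∈ I <;> by_cases hv : v ∈ I
    · exact absurd huv (hI u hu v hv)
    · exact hXY _ (k1 (j, u) hu) _ (k2 (j, v) hv)
    · show c _ _ = β
      rw [hc]; exact hXY _ (k1 (j, v) hv) _ (k2 (j, u) hu)
    · refine hY _ (k2 (j, u) hu) _ (k2 (j, v) hv) ?_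
      intro h'
      have := hi h'
      simp only [Prod.mk.injEq, true_and] at this
      exact huv.ne this

end Pool.Agent.H.C044
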