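import Pool.Agent.H.MP_c044fe_co.A

set_option autoImplicit false

namespace Pool.Agent.H.C044

open Finset

variable {U V : Type}

def Core (c : V → V → Bool) (L : ℕ) (β : Bool) (S : Finset V) : Prop :=
  ∃ R ⊆ S, ∃ B ⊆ S, Disjoint R B ∧ R.card = L ∧ B.card = L ∧ Cl c β R ∧ Cl c (!β) B ∧
    Bt c (!β) R B

theorem greedy [Fintype U] [DecidableEq V] {G : SimpleGraph U} {c : V → V → Bool} {β : Bool}
    (hk : 0 < Fintype.card U) (ρ : ℕ) (S : Finset V)
    (h : ∀ S' ⊆ S, ρ ≤ S'.card → ∃ X ⊆ S', X.card = Fintype.card U ∧ Cl c β X) :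
    ∃ p, Pack G (fun x y => c x y = β) S p ∧ S.card ≤ Fintype.card U * p + ρ := by
  induction S using Finset.strongInduction with
  | H S ih =>
    by_cases hS : ρ ≤ S.card
    · obtain ⟨X, hX, hc, hcl⟩ := h S (Subset.refl _) hS
      have hne : X.Nonempty := card_pos.1 (by omega)
      obtain ⟨p, hp, hp2⟩ := ih (S \ X) (sdiff_ssubset hX hne)
        (fun S' hS' => h S' (hS'.trans sdiff_subset))
      have h1 : Pack G (fun x y => c x y = β) X 1 := pack_clique hcl (by omega)
      refine ⟨p + 1, (hp.union h1 sdiff_disjoint).mono ?_ le_rfl, ?_⟩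
      · exact union_subset sdiff_subset hX
      · rw [card_sdiff_of_subset hX] at hp2
        have := card_le_card hX
        rw [mul_add]; omega
    · exact ⟨0, pack_zero, by omega⟩

theorem nocore [Fintype U] (G : SimpleGraph U) (hk : 0 < Fintype.card U) (L : ℕ) :
    ∃ K : ℕ, ∀ (V : Type) [DecidableEq V] (c : V → V → Bool), (∀ x y, c x y = c y x) →
      ∀ S : Finset V, (∀ β, ¬ Core c L β S) →
        ∃ β p, Pack G (fun x y => c x y = β) S p ∧ S.card ≤ Fintype.card U * p + K := by
  set M := 2 * L + 2 ^ (2 * L) * L + Fintype.card U with hM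
  obtain ⟨ρ, hρ⟩ := ramsey M M
  refine ⟨ρ + M, fun V _ c hc S hS => ?_⟩
  by_cases hB : ∃ B ⊆ S, B.card = M ∧ Cl c false B
  · obtain ⟨B, hBS, hBc, hBl⟩ := hB
    obtain ⟨p, hp, hp2⟩ := greedy (G := G) (c := c) (β := false) hk ρ (S \ B) (by
      intro S' hS' hρ'
      rcases hρ V c hc S' hρ' with ⟨X, hX, hXc, hXl⟩ | ⟨X, hX, hXc, hXl⟩
      · exfalso
        obtain ⟨R', hR', B', hB', e1, e2, β, hβ⟩ := bip c L X B (by omega) (by omega)
        have hd : Disjoint R' B' :=
          (sdiff_disjoint (s := B) (t := S)).mono (hR'.trans (hX.trans hS')) hB'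
        have hRS : R' ⊆ S := (hR'.trans (hX.trans hS')).trans sdiff_subset
        cases β
        · exact hS true ⟨R', hRS, B', hB'.trans hBS, hd, e1, e2, hXl.mono hR', hBl.mono hB', hβ⟩
        · exact hS false ⟨B', hB'.trans hBS, R', hRS, hd.symm, e2, e1, hBl.mono hB', hXl.mono hR',
            fun x a y b => by rw [hc]; exact hβ y b x a⟩
      · obtain ⟨Y, hY, hYc⟩ := exists_subset_card_eq (s := X) (n := Fintype.card U) (by omega)
        exact ⟨Y, hY.trans hX, hYc, hXl.mono hY⟩)
    refine ⟨false, p, hp.mono sdiff_subset le_rfl, ?_⟩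
    rw [card_sdiff_of_subset hBS] at hp2
    omega
  · obtain ⟨p, hp, hp2⟩ := greedy (G := G) (c := c) (β := true) hk ρ S (by
      intro S' hS' hρ'
      rcases hρ V c hc S' hρ' with ⟨X, hX, hXc, hXl⟩ | ⟨X, hX, hXc, hXl⟩
      · obtain ⟨Y, hY, hYc⟩ := exists_subset_card_eq (s := X) (n := Fintype.card U) (by omega)
        exact ⟨Y, hY.trans hX, hYc, hXl.mono hY⟩
      · exact absurd ⟨X, hX.trans hS', hXc, hXl⟩ hB)
    exact ⟨true, p, hp, by omega⟩

def Tie (G : SimpleGraph U) (c : V → V → Bool) (w : ℕ) (T : Finset V) : Prop :=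
  T.card = w ∧ ∀ β, Pack G (fun x y => c x y = β) T 1

def Shr (G : SimpleGraph U) (c : V → V → Bool) (w : ℕ) (W W' : Finset V) (m : ℕ) : Prop :=
  W.card = W'.card + w * m ∧
    ∀ β j, Pack G (fun x y => c x y = β) W' j → Pack G (fun x y => c x y = β) W (j + m)

theorem Shr.refl {G : SimpleGraph U} {c : V → V → Bool} {w : ℕ} (W : Finset V) :
    Shr G c w W W 0 := ⟨by simp, fun _ _ h => h⟩

theorem Shr.trans {G : SimpleGraph U} {c : V → V → Bool} {w : ℕ} {W W' W'' : Finset V} {m m' : ℕ}
    (h : Shr G c w W W' m) (h' : Shr G c w W' W'' m') : Shr G c w W W'' (m' + m) :=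
  ⟨by rw [h.1, h'.1]; ring, fun β j hp => by
    rw [← add_assoc]; exact h.2 β _ (h'.2 β j hp)⟩

theorem Tie.shr [DecidableEq V] {G : SimpleGraph U} {c : V → V → Bool} {w : ℕ} {T W : Finset V}
    (h : Tie G c w T) (hT : T ⊆ W) : Shr G c w W (W \ T) 1 := by
  refine ⟨?_, fun β j hp => (hp.union (h.2 β) sdiff_disjoint).mono
    (union_subset sdiff_subset hT) le_rfl⟩
  rw [card_sdiff_of_subset hT, h.1]
  have := card_le_card hT
  rw [h.1] at this
  omega

section
variable [Fintype U] [DecidableEq U] [DecidableEq V] {G : SimpleGraph U}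
    {c : V → V → Bool} (hc : ∀ x y, c x y = c y x) {I : Finset U}
    (hI : ∀ u ∈ I, ∀ v ∈ I, ¬ G.Adj u v) {h : ℕ} (hh : I.card + h = Fintype.card U)

include hc hI hh

theorem tie_of {β : Bool} {X Y Z : Finset V} (hXZ : X ⊆ Z) (hd : Disjoint Z Y)
    (hZ : Z.card = Fintype.card U) (hY : Y.card = h) (hX : I.card ≤ X.card)
    (c1 : Cl c β Z) (c2 : Cl c (!β) Y) (c3 : Bt c (!β) X Y) :
    Tie G c (Fintype.card U + h) (Z ∪ Y) := by
  refine ⟨by rw [card_union_of_disjoint hd, hZ, hY], fun γ => ?_⟩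
  by_cases hγ : γ = β
  · subst hγ
    exact (pack_clique c1 (by omega)).mono subset_union_left le_rfl
  · have : γ = !β := by cases γ <;> cases β <;> simp_all
    subst this
    exact (pack_split hc hI hh (hd.mono_left hXZ) c2 c3 (t := 1) (by omega) (by omega)).mono
      (union_subset_union hXZ (Subset.refl _)) le_rfl

theorem maxtie (h0 : 0 < h) (R0 S : Finset V) (hd : Disjoint R0 S) :
    ∃ D ⊆ S, ∃ m, Shr G c (Fintype.card U + h) (R0 ∪ S) (R0 ∪ D) m ∧
      ∀ β, ¬ Core c (Fintype.card U) β D := by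
  induction S using Finset.strongInduction with
  | H S ih =>
    by_cases hS : ∀ β, ¬ Core c (Fintype.card U) β S
    · exact ⟨S, Subset.refl _, 0, Shr.refl _, hS⟩
    · push Not at hS
      obtain ⟨β, R, hR, B, hB, hRB, e1, e2, c1, c2, c3⟩ := hS
      obtain ⟨Y, hY, hYc⟩ := exists_subset_card_eq (s := B) (n := h) (by omega)
      have ht := tie_of hc hI hh (β := β) (X := R) (Y := Y) (Z := R) (Subset.refl _)
        (hRB.mono_right hY) e1 hYc (by omega) c1 (c2.mono hY) (c3.mono (Subset.refl _) hY)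
      have hsub : R ∪ Y ⊆ S := union_subset hR (hY.trans hB)
      have hne : (R ∪ Y).Nonempty := card_pos.1 (by rw [ht.1]; omega)
      obtain ⟨D, hD, m, hm, hno⟩ := ih (S \ (R ∪ Y)) (sdiff_ssubset hsub hne)
        (hd.mono_right sdiff_subset)
      refine ⟨D, hD.trans sdiff_subset, m + 1, ?_, hno⟩
      have h1 := ht.shr (W := R0 ∪ S) (hsub.trans subset_union_right)
      have e : (R0 ∪ S) \ (R ∪ Y) = R0 ∪ S \ (R ∪ Y) := by
        rw [union_sdiff_distrib, sdiff_eq_self_of_disjoint (hd.mono_right hsub)]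
      rw [e] at h1
      exact h1.trans hm

theorem step (h0 : 0 < h) {R B C : Finset V} (hG : Good c R B C) {d : V}
    (hd : d ∉ R ∪ B ∪ C) (hR : 2 * Fintype.card U ≤ R.card) (hB : h ≤ B.card) :
    ∃ Z ⊆ R, ∃ Y ⊆ B, Z.card ≤ Fintype.card U ∧ Y.card ≤ h ∧
      (Tie G c (Fintype.card U + h) (insert d (Z ∪ Y)) ∨
        (Tie G c (Fintype.card U + h) (Z ∪ Y) ∧ Good c (R \ Z) (B \ Y) (insert d C))) := by
  obtain ⟨a1, a2, a3, a4, a5, a6, a7, a8⟩ := hG
  simp only [mem_union, not_or] at hd
  obtain ⟨⟨d1, d2⟩, d3⟩ := hd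
  have ins : ∀ (β : Bool) (X : Finset V), Cl c β X → (∀ y ∈ X, c d y = β) → Cl c β (insert d X) := by
    intro β X hcl hX x hx y hy hxy
    rcases mem_insert.1 hx with rfl | hx' <;> rcases mem_insert.1 hy with rfl | hy'
    · exact absurd rfl hxy
    · exact hX _ hy'
    · rw [hc]; exact hX _ hx'
    · exact hcl x hx' y hy' hxy
  by_cases h1 : Fintype.card U - 1 ≤ (R.filter (fun y => c d y = true)).card
  · obtain ⟨Z, hZ, hZc⟩ := exists_subset_card_eq h1
    obtain ⟨Y, hY, hYc⟩ := exists_subset_card_eq hB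
    have hZR : Z ⊆ R := hZ.trans (filter_subset _ _)
    refine ⟨Z, hZR, Y, hY, by omega, by omega, Or.inl ?_⟩
    rw [← insert_union]
    refine tie_of hc hI hh (β := true) (X := Z) (subset_insert _ _) ?_ ?_ hYc (by omega)
      (ins _ _ (a4.mono hZR) (fun y hy => (mem_filter.1 (hZ hy)).2)) (a5.mono hY) (a6.mono hZR hY)
    · rw [disjoint_insert_left]
      exact ⟨fun h => d2 (hY h), a1.mono hZR hY⟩
    · rw [card_insert_of_notMem (fun h => d1 (hZR h))]; omega
  · have hsum := card_filter_add_card_filter_not (s := R) (fun y => c d y = true)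
    by_cases h2 : h - 1 ≤ (B.filter (fun y => c d y = false)).card
    · obtain ⟨Y, hY, hYc⟩ := exists_subset_card_eq h2
      obtain ⟨Z, hZ, hZc⟩ := exists_subset_card_eq
        (s := R.filter (fun y => ¬ c d y = true)) (n := Fintype.card U) (by omega)
      have hZR : Z ⊆ R := hZ.trans (filter_subset _ _)
      have hYB : Y ⊆ B := hY.trans (filter_subset _ _)
      refine ⟨Z, hZR, Y, hYB, by omega, by omega, Or.inl ?_⟩
      rw [← union_insert]
      refine tie_of hc hI hh (β := true) (X := Z) (Subset.refl _) ?_ hZc ?_ (by omega)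
        (a4.mono hZR) (ins _ _ (a5.mono hYB) (fun y hy => (mem_filter.1 (hY hy)).2)) ?_
      · rw [disjoint_insert_right]
        exact ⟨fun h => d1 (hZR h), a1.mono hZR hYB⟩
      · rw [card_insert_of_notMem (fun h => d2 (hYB h))]; omega
      · intro x hx y hy
        rcases mem_insert.1 hy with rfl | hy
        · rw [hc]; simpa using (mem_filter.1 (hZ hx)).2
        · exact a6 x (hZR hx) y (hYB hy)
    · obtain ⟨Z, hZ1, hZ, hZc⟩ := exists_subsuperset_card_eq
        (filter_subset (fun y => c d y = true) R) (n := Fintype.card U) (by omega) (by omega)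
      obtain ⟨Y, hY1, hY, hYc⟩ := exists_subsuperset_card_eq
        (filter_subset (fun y => c d y = false) B) (n := h) (by omega) (by omega)
      refine ⟨Z, hZ, Y, hY, by omega, by omega, Or.inr ⟨?_, ?_⟩⟩
      · exact tie_of hc hI hh (β := true) (X := Z) (Subset.refl _) (a1.mono hZ hY) hZc hYc
          (by omega) (a4.mono hZ) (a5.mono hY) (a6.mono hZ hY)
      · refine ⟨a1.mono sdiff_subset sdiff_subset, ?_, ?_, a4.mono sdiff_subset,
          a5.mono sdiff_subset, a6.mono sdiff_subset sdiff_subset, ?_, ?_⟩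
        · rw [disjoint_insert_left]
          exact ⟨fun h => d1 (sdiff_subset h), a2.mono_right sdiff_subset⟩
        · rw [disjoint_insert_left]
          exact ⟨fun h => d2 (sdiff_subset h), a3.mono_right sdiff_subset⟩
        · intro x hx y hy
          rcases mem_insert.1 hx with rfl | hx
          · by_contra hne
            exact (mem_sdiff.1 hy).2 (hZ1 (mem_filter.2 ⟨(mem_sdiff.1 hy).1, by simpa using hne⟩))
          · exact a7 x hx y (sdiff_subset hy)
        · intro x hx y hy
          rcases mem_insert.1 hx with rfl | hx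
          · by_contra hne
            exact (mem_sdiff.1 hy).2 (hY1 (mem_filter.2 ⟨(mem_sdiff.1 hy).1, by simpa using hne⟩))
          · exact a8 x hx y (sdiff_subset hy)

theorem absorb (h0 : 0 < h) (l : ℕ) (hl : 1 ≤ l) (D : Finset V) :
    ∀ R B C : Finset V, Good c R B C → Disjoint D (R ∪ B ∪ C) →
      Fintype.card U * (l + D.card) ≤ R.card → h * (l + D.card) ≤ B.card →
      ∃ R' B' C' m, Good c R' B' C' ∧
        Shr G c (Fintype.card U + h) (R ∪ B ∪ C ∪ D) (R' ∪ B' ∪ C') m ∧
        Fintype.card U * l ≤ R'.card ∧ h * l ≤ B'.card ∧ C'.card ≤ C.card + D.card := by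
  induction D using Finset.induction_on with
  | empty =>
    intro R B C hG _ h1 h2
    exact ⟨R, B, C, 0, hG, by simpa using Shr.refl _, by simpa using h1, by simpa using h2, by simp⟩
  | insert d D hd ih =>
    intro R B C hG hdis h1 h2
    rw [disjoint_insert_left] at hdis
    rw [card_insert_of_notMem hd] at h1 h2 ⊢
    obtain ⟨Z, hZ, Y, hY, zc, yc, hor⟩ := step hc hI hh h0 hG hdis.1 (by nlinarith) (by nlinarith)
    have r1 : Fintype.card U * (l + D.card) ≤ (R \ Z).card := by
      rw [← add_assoc, mul_add, mul_one] at h1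
      rw [card_sdiff_of_subset hZ]; omega
    have r2 : h * (l + D.card) ≤ (B \ Y).card := by
      rw [← add_assoc, mul_add, mul_one] at h2
      rw [card_sdiff_of_subset hY]; omega
    obtain ⟨a1, a2, a3, -⟩ := id hG
    have a1' := disjoint_left.1 a1
    have a2' := disjoint_left.1 a2
    have a3' := disjoint_left.1 a3
    have a4' := disjoint_left.1 hdis.2
    have a5' := hdis.1
    simp only [mem_union, not_or] at a4' a5'
    rcases hor with ht | ⟨ht, hG'⟩
    · obtain ⟨R', B', C', m, g, s, x1, x2, x3⟩ := ih (R \ Z) (B \ Y) C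
        (hG.mono sdiff_subset sdiff_subset (Subset.refl _))
        (hdis.2.mono_right (by gcongr <;> exact sdiff_subset)) r1 r2
      have h3 := ht.shr (W := R ∪ B ∪ C ∪ insert d D) (by
        intro x; simp only [mem_insert, mem_union]; grind)
      have e : (R ∪ B ∪ C ∪ insert d D) \ insert d (Z ∪ Y) = R \ Z ∪ B \ Y ∪ C ∪ D := by
        ext x; simp only [mem_insert, mem_union, mem_sdiff]; grind
      rw [e] at h3
      exact ⟨R', B', C', _, g, h3.trans s, x1, x2, by omega⟩
    · obtain ⟨R', B', C', m, g, s, x1, x2, x3⟩ := ih (R \ Z) (B \ Y) (insert d C) hG'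
        (by rw [disjoint_left]; intro x; simp only [mem_insert, mem_union, mem_sdiff]; grind) r1 r2
      have h3 := ht.shr (W := R ∪ B ∪ C ∪ insert d D) (by
        intro x; simp only [mem_insert, mem_union]; grind)
      have e : (R ∪ B ∪ C ∪ insert d D) \ (Z ∪ Y) = R \ Z ∪ B \ Y ∪ insert d C ∪ D := by
        ext x; simp only [mem_insert, mem_union, mem_sdiff]; grind
      rw [e] at h3
      have := card_insert_le d C
      exact ⟨R', B', C', _, g, h3.trans s, x1, x2, by omega⟩

end

end Pool.Agent.H.C044
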