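import Pool.Agent.H.MP_c044fe_co.B

set_option autoImplicit false

namespace Pool.Agent.H.C044

open Finset

variable {U V : Type}

def NoPiece (G : SimpleGraph U) (c : V → V → Bool) (C : Finset V) : Prop :=
  ∀ l : U → Lab V, Ok C l → (∀ u v, G.Adj u v → col c (l u) (l v) = true) → ∀ u, l u = .a

def BlueOk [Fintype U] [DecidableEq V] (G : SimpleGraph U) (c : V → V → Bool) (n b : ℕ)
    (C : Finset V) : Prop :=
  ∀ l : Fin n × U → Lab V, Ok C l → (univ.filter (fun p => l p = .b)).card ≤ b →
    (∀ j u v, G.Adj u v → col c (l (j, u)) (l (j, v)) = false) → False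

theorem piece_c {G : SimpleGraph U} (hG : ∀ u, ∃ v, G.Adj u v) {c : V → V → Bool}
    {l : U → Lab V} (h : ∀ u v, G.Adj u v → col c (l u) (l v) = true) {u : U} (hu : l u ≠ .a) :
    ∃ u v, l u = .c v := by
  cases h1 : l u with
  | a => exact absurd h1 hu
  | c v => exact ⟨u, v, h1⟩
  | b =>
    obtain ⟨v, hv⟩ := hG u
    have := h u v hv
    cases h2 : l v with
    | a => simp [h1, h2, col] at this
    | b => simp [h1, h2, col] at this
    | c w => exact ⟨v, w, h2⟩

theorem kill [Fintype U] [DecidableEq V] {G : SimpleGraph U} (hG : ∀ u, ∃ v, G.Adj u v)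
    {c : V → V → Bool} (hc : ∀ x y, c x y = c y x) (C : Finset V) :
    ∀ (R B : Finset V) (j : ℕ), Good c R B C → Fintype.card U * C.card ≤ R.card →
      Fintype.card U * C.card ≤ B.card → ¬ Pack G (fun x y => c x y = true) (R ∪ B ∪ C) j →
      ∃ C' ⊆ C, NoPiece G c C' ∧ R.card + C.card + 1 ≤ Fintype.card U * j + C'.card := by
  induction C using Finset.strongInduction with
  | H C ih =>
    intro R B j hg h1 h2 hno
    by_cases hp : NoPiece G c C
    · refine ⟨C, Subset.refl _, hp, ?_⟩
      by_contra hlt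
      exact hno ((pack_clique hg.2.2.2.1 (by omega)).mono
        (subset_union_left.trans subset_union_left) le_rfl)
    · simp only [NoPiece, not_forall] at hp
      obtain ⟨l, hl, hcol, u, hu⟩ := hp
      obtain ⟨u1, v1, huv⟩ := piece_c hG hcol hu
      have hv1 := hl.1 _ _ huv
      have hpos : 1 ≤ C.card := card_pos.2 ⟨v1, hv1⟩
      have k1 : Fintype.card U ≤ Fintype.card U * C.card := Nat.le_mul_of_pos_right _ hpos
      obtain ⟨f, hi, hm, f3, hf⟩ := realize_col hc hg l hl
        ((card_le_univ _).trans (by omega)) ((card_le_univ _).trans (by omega))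
      set T := univ.image f with hT
      have hTc : T.card = Fintype.card U := by rw [hT, card_image_of_injective _ hi, card_univ]
      have hTp : Pack G (fun x y => c x y = true) T 1 := by
        refine ⟨fun p => f p.2, ?_, fun p => mem_image_of_mem _ (mem_univ _), fun j u v huv => ?_⟩
        · intro p q h
          exact Prod.ext (Subsingleton.elim _ _) (hi h)
        · show c (f u) (f v) = true
          rw [hf u v huv.ne]; exact hcol u v huv
      have hTs : T ⊆ R ∪ B ∪ C := by
        intro x hx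
        obtain ⟨p, -, rfl⟩ := mem_image.1 hx
        exact hm p
      have hv1T : v1 ∈ T := by rw [← f3 u1 v1 huv]; exact mem_image_of_mem _ (mem_univ _)
      have hss : C \ T ⊂ C := by
        refine ⟨sdiff_subset, fun h => ?_⟩
        exact (mem_sdiff.1 (h hv1)).2 hv1T
      have hlt := card_lt_card hss
      have k2 : Fintype.card U * (C \ T).card + Fintype.card U ≤ Fintype.card U * C.card := by
        rw [← mul_add_one]; exact Nat.mul_le_mul_left _ hlt
      have r1 := le_card_sdiff T R
      have r2 := le_card_sdiff T B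
      rcases j with _ | j
      · exact absurd pack_zero hno
      obtain ⟨C', hC', hnp, hle⟩ := ih (C \ T) hss (R \ T) (B \ T) j
        (hg.mono sdiff_subset sdiff_subset sdiff_subset) (by omega) (by omega) (by
          intro hp
          refine hno ((hp.union hTp ?_).mono ?_ le_rfl)
          · rw [← union_sdiff_distrib, ← union_sdiff_distrib]; exact sdiff_disjoint
          · refine union_subset ?_ hTs
            gcongr <;> exact sdiff_subset)
      refine ⟨C', hC'.trans sdiff_subset, hnp, ?_⟩
      have r3 := le_card_sdiff T (R ∪ C)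
      rw [union_sdiff_distrib, card_union_of_disjoint hg.2.1.symm,
        card_union_of_disjoint (hg.2.1.symm.mono sdiff_subset sdiff_subset)] at r3
      rw [mul_add]; omega

section
variable [Fintype U] [DecidableEq U] [DecidableEq V] {G : SimpleGraph U}
    {c : V → V → Bool} {i h : ℕ} (hh : i + h = Fintype.card U)
    (hmax : ∀ J : Finset U, (∀ u ∈ J, ∀ v ∈ J, ¬ G.Adj u v) → J.card ≤ i)
include hmax

theorem cnt_a {l : U → Lab V} (hl : ∀ u v, G.Adj u v → col c (l u) (l v) = false) :
    (univ.filter (fun u => l u = .a)).card ≤ i := by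
  apply hmax
  intro u hu v hv huv
  have := hl u v huv
  rw [(mem_filter.1 hu).2, (mem_filter.1 hv).2] at this
  simp [col] at this

include hh

theorem cnt_b {l : U → Lab V} (hl : ∀ u v, G.Adj u v → col c (l u) (l v) = false)
    (hn : ∀ u v, l u ≠ .c v) : h ≤ (univ.filter (fun u => l u = .b)).card := by
  have h1 := cnt_a hmax hl
  have h2 := card_filter_add_card_filter_not (s := (univ : Finset U)) (fun u => l u = .a)
  have h3 : univ.filter (fun u => ¬ l u = .a) = univ.filter (fun u => l u = .b) := by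
    apply filter_congr
    intro u _
    cases h : l u with
    | a => simp
    | b => simp
    | c v => exact absurd h (hn u v)
  rw [h3, card_univ] at h2
  omega

theorem blue_triv {n b : ℕ} (hb : b < h * n) : BlueOk G c n b ∅ := by
  intro l hl h1 h2
  rw [cnt_prod] at h1
  have : ∑ _j : Fin n, h ≤ ∑ j, (univ.filter (fun u => l (j, u) = .b)).card :=
    sum_le_sum (fun j _ => cnt_b hh hmax (l := fun u => l (j, u)) (h2 j)
      (fun u v h => by simpa using hl.1 _ _ h))
  simp only [sum_const, card_univ, Fintype.card_fin, smul_eq_mul] at this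
  rw [mul_comm] at this
  omega

theorem blue (hc : ∀ x y, c x y = c y x) {R B C : Finset V} (hg : Good c R B C) {n' : ℕ} (m : ℕ)
    (hno : ¬ Pack G (fun x y => c x y = false) (R ∪ B ∪ C) n') (hR : i * n' ≤ R.card)
    (hC : C.card ≤ n') : BlueOk G c (n' + m) (B.card + h * m) C := by
  classical
  intro l hl h1 h2
  have hJ0 : (univ.filter (fun j : Fin (n' + m) => ∃ u v, l (j, u) = .c v)).card ≤ C.card := by
    have ex : ∀ j : Fin (n' + m), (∃ u v, l (j, u) = .c v) → ∃ v, ∃ u, l (j, u) = .c v :=
      fun j ⟨u, v, h⟩ => ⟨v, u, h⟩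
    rcases C.eq_empty_or_nonempty with rfl | ⟨v0, -⟩
    · rw [card_empty, Nat.le_zero, card_eq_zero, filter_eq_empty_iff]
      rintro j - ⟨u, v, h⟩
      simpa using hl.1 _ _ h
    choose g hg using ex
    refine card_le_card_of_injOn (fun j => if h : ∃ u v, l (j, u) = .c v then g j h else v0) ?_ ?_
    · intro j hj
      have hj' := (mem_filter.1 (mem_coe.1 hj)).2
      simp only [dif_pos hj']
      obtain ⟨u, hu⟩ := hg j hj'
      exact hl.1 _ _ hu
    · intro j hj j' hj' e
      have a1 := (mem_filter.1 (mem_coe.1 hj)).2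
      have a2 := (mem_filter.1 (mem_coe.1 hj')).2
      simp only [dif_pos a1, dif_pos a2] at e
      obtain ⟨u, hu⟩ := hg j a1
      obtain ⟨u', hu'⟩ := hg j' a2
      rw [e] at hu
      exact congrArg Prod.fst (hl.2 _ _ _ hu hu')
  obtain ⟨J, hJ1, -, hJc⟩ := exists_subsuperset_card_eq
    (subset_univ (univ.filter (fun j : Fin (n' + m) => ∃ u v, l (j, u) = .c v))) (n := n')
    (by omega) (by simp)
  rw [cnt_prod, ← sum_add_sum_compl J] at h1
  have h3 : ∑ _j ∈ Jᶜ, h ≤ ∑ j ∈ Jᶜ, (univ.filter (fun u => l (j, u) = .b)).card :=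
    sum_le_sum (fun j hj => cnt_b hh hmax (l := fun u => l (j, u)) (h2 j)
      (fun u v h => (mem_compl.1 hj) (hJ1 (mem_filter.2 ⟨mem_univ _, u, v, h⟩))))
  rw [sum_const, card_compl, hJc, Fintype.card_fin, smul_eq_mul, Nat.add_sub_cancel_left,
    mul_comm] at h3
  obtain ⟨f, hi, hm, -, hf⟩ := realize_col hc hg (fun p : J × U => l (p.1.1, p.2))
    ⟨fun p v h => hl.1 _ _ h, fun p q v a b => by
      have := hl.2 _ _ _ a b
      simp only [Prod.mk.injEq] at this
      exact Prod.ext (Subtype.ext this.1) this.2⟩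
    (by
      rw [cnt_prod]
      refine le_trans (sum_le_sum (g := fun _ => i)
        (fun j _ => cnt_a hmax (l := fun u => l (j.1, u)) (h2 j.1))) ?_
      simp only [sum_const, card_univ, Fintype.card_coe, hJc, smul_eq_mul]
      rw [mul_comm]; exact hR)
    (by
      rw [cnt_prod]
      rw [sum_coe_sort J (fun j => (univ.filter (fun u => l (j, u) = .b)).card)]
      omega)
  apply hno
  have := pack_of (G := G) (E := fun x y => c x y = false) (S := R ∪ B ∪ C) J f hi hm (by
    intro j u v huv
    rw [hf (j, u) (j, v) (by simp [huv.ne])]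
    exact h2 _ u v huv)
  rwa [Fintype.card_coe, hJc] at this

end

theorem fside [Fintype U] [DecidableEq V] {G : SimpleGraph U} {c : V → V → Bool}
    (hc : ∀ x y, c x y = c y x) {n b : ℕ} {C : Finset V} (h1 : BlueOk G c n b C)
    (h2 : NoPiece G c C) {W : Type} [Fintype W] [DecidableEq W] (F : W → W → Prop)
    (hF : ∀ c' : W → W → Bool, (∀ x y, c' x y = c' y x) →
      ∃ β, Pack G (fun x y => F x y ∧ c' x y = β) univ n)
    (s : ℕ) (hs : Fintype.card U * s ≤ b + C.card) (hp : Pack G F univ s) :
    Pack G F univ (s + n) := by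
  obtain ⟨f, hi, -, hf⟩ := hp
  set T := univ.image f with hT
  have hTc : T.card = Fintype.card U * s := by
    rw [hT, card_image_of_injective _ hi, card_univ]; simp [mul_comm]
  have hTp : Pack G F T s := ⟨f, hi, fun p => mem_image_of_mem _ (mem_univ _), hf⟩
  obtain ⟨TC, hTC, hTCc⟩ := exists_subset_card_eq (s := T) (n := min T.card C.card)
    (min_le_left _ _)
  obtain ⟨e, he⟩ := Function.Embedding.exists_of_card_le_finset (α := TC) (s := C)
    (by rw [Fintype.card_coe, hTCc]; exact min_le_right _ _)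
  have he' : ∀ x, e x ∈ C := fun x => he ⟨x, rfl⟩
  let μ : W → Lab V := fun x => if h : x ∈ TC then .c (e ⟨x, h⟩) else if x ∈ T then .b else .a
  have μok : Ok C μ := by
    constructor
    · intro x v h
      simp only [μ] at h
      split_ifs at h with a1 a2
      cases h; exact he' _
    · intro x y v a b
      simp only [μ] at a b
      split_ifs at a with a1 a2
      split_ifs at b with b1 b2
      have : e ⟨x, a1⟩ = e ⟨y, b1⟩ := by
        injection a with a; injection b with b; rw [a, b]
      exact congrArg Subtype.val (e.injective this)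
  have μb : ∀ x, μ x = .b → x ∈ T \ TC := by
    intro x h
    simp only [μ] at h
    split_ifs at h with a1 a2
    exact mem_sdiff.2 ⟨a2, a1⟩
  have μa : ∀ x, μ x = .a → x ∈ Tᶜ := by
    intro x h
    simp only [μ] at h
    split_ifs at h with a1 a2
    exact mem_compl.2 a2
  obtain ⟨β, g, gi, -, hg⟩ := hF (fun x y => col c (μ x) (μ y)) (fun x y => col_symm hc _ _)
  cases β
  · exfalso
    refine h1 (fun p => μ (g p)) ⟨fun p v h => μok.1 _ _ h, fun p q v a b => gi (μok.2 _ _ _ a b)⟩
      ?_ (fun j u v huv => (hg j u v huv).2)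
    have : (univ.filter (fun p => μ (g p) = .b)).card ≤ (T \ TC).card :=
      card_le_card_of_injOn g (fun p hp => μb _ (mem_filter.1 (mem_coe.1 hp)).2) gi.injOn
    rw [card_sdiff_of_subset hTC] at this
    omega
  · have : Pack G F Tᶜ n := by
      refine ⟨g, gi, fun p => μa _ ?_, fun j u v huv => (hg j u v huv).1⟩
      refine h2 (fun u => μ (g (p.1, u))) ⟨fun p v h => μok.1 _ _ h, fun p q v a b => ?_⟩
        (fun u v huv => (hg _ u v huv).2) p.2
      have := gi (μok.2 _ _ _ a b)
      simpa using this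
    exact (hTp.union this disjoint_compl_right).mono (subset_univ _) le_rfl

theorem fside' [Fintype U] [DecidableEq V] {G : SimpleGraph U} {c : V → V → Bool}
    (hc : ∀ x y, c x y = c y x) {n b : ℕ} (hn : 1 ≤ n) {C : Finset V} (h1 : BlueOk G c n b C)
    (h2 : NoPiece G c C) {W : Type} [Fintype W] [DecidableEq W] (F : W → W → Prop)
    (hF : ∀ c' : W → W → Bool, (∀ x y, c' x y = c' y x) →
      ∃ β, Pack G (fun x y => F x y ∧ c' x y = β) univ n)
    (s : ℕ) (hs : Fintype.card U * s ≤ b + C.card) : Pack G F univ (s + n) := by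
  induction s with
  | zero => exact fside hc h1 h2 F hF 0 hs pack_zero
  | succ s ih =>
    exact fside hc h1 h2 F hF _ hs
      ((ih (by rw [mul_add] at hs; omega)).mono (Subset.refl _) (by omega))

theorem structure_red [Fintype U] [DecidableEq U] [Fintype V] [DecidableEq V] {G : SimpleGraph U}
    (hG : ∀ u, ∃ v, G.Adj u v) {c : V → V → Bool} (hc : ∀ x y, c x y = c y x) {I : Finset U}
    (hI : ∀ u ∈ I, ∀ v ∈ I, ¬ G.Adj u v) {h : ℕ} (hh : I.card + h = Fintype.card U) (h0 : 0 < h)
    (hmax : ∀ J : Finset U, (∀ u ∈ J, ∀ v ∈ J, ¬ G.Adj u v) → J.card ≤ I.card)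
    {K : ℕ} (hK : ∀ S : Finset V, (∀ β, ¬ Core c (Fintype.card U) β S) →
        ∃ β p, Pack G (fun x y => c x y = β) S p ∧ S.card ≤ Fintype.card U * p + K)
    {n : ℕ} (hno : ∀ β, ¬ Pack G (fun x y => c x y = β) univ n)
    (hN : (Fintype.card U + h) * n ≤ Fintype.card V + 1)
    (c2 l : ℕ) (hc2 : c2 = (Fintype.card U + 1) * K) (hl : l = Fintype.card U * (2 * c2 + 1))
    (hcore : Core c (Fintype.card U * (l + c2)) true univ) :
    ∃ (b : ℕ) (C : Finset V), BlueOk G c n b C ∧ NoPiece G c C ∧
      Fintype.card V + 1 ≤ Fintype.card U * n + b + C.card := by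
  obtain ⟨R, -, B1, -, hd, e1, e2, c1, c2', c3⟩ := hcore
  set k := Fintype.card U with hk
  have hhk : h ≤ k := by omega
  obtain ⟨B, hB, hBc⟩ := exists_subset_card_eq (s := B1) (n := h * (l + c2))
    (by rw [e2]; exact Nat.mul_le_mul_right _ hhk)
  have hg : Good c R B ∅ := ⟨hd.mono_right hB, by simp, by simp, c1, c2'.mono hB,
    c3.mono (Subset.refl _) hB, by simp [Bt], by simp [Bt]⟩
  obtain ⟨D, hD, m, hm, hDn⟩ := maxtie hc hI hh h0 (R ∪ B) (R ∪ B)ᶜ disjoint_compl_right
  rw [union_compl] at hm
  obtain ⟨β, p, hp, hp2⟩ := hK D hDn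
  have hdD : Disjoint (R ∪ B) D := disjoint_compl_right.mono_right hD
  have hRB : Pack G (fun x y => c x y = β) (R ∪ B) (l + c2) := by
    cases β
    · exact pack_split hc hI hh hg.1 hg.2.2.2.2.1 hg.2.2.2.2.2.1
        (by rw [e1]; exact Nat.mul_le_mul_right _ (by omega)) (by omega)
    · exact (pack_clique c1 e1.ge).mono subset_union_left le_rfl
  have q1 : l + c2 + p + m + 1 ≤ n := by
    by_contra hlt
    exact hno β ((hm.2 β _ (hRB.union hp hdD)).mono (Subset.refl _) (by omega))
  have q2 := hm.1
  rw [card_univ, card_union_of_disjoint hdD, card_union_of_disjoint hg.1, e1, hBc] at q2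
  have q3 : (k + h) * (l + c2 + p + m + 1) ≤ (k + h) * n := Nat.mul_le_mul_left _ q1
  have q4 : p ≤ K := by
    have : 1 * p ≤ h * p := Nat.mul_le_mul_right _ h0
    linarith
  have q5 : D.card ≤ c2 := by
    have : k * p ≤ k * K := Nat.mul_le_mul_left _ q4
    rw [hc2]; linarith
  have hk1 : 1 ≤ k := by omega
  have hl1 : 2 * c2 + 1 ≤ l := by rw [hl]; exact Nat.le_mul_of_pos_left _ hk1
  obtain ⟨R', B', C', m', g', s', x1, x2, x3⟩ := absorb hc hI hh h0 l (by omega) D R B ∅ hg
    (by simpa using hdD.symm) (by rw [e1]; gcongr) (by rw [hBc]; gcongr)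
  rw [union_empty] at s'
  have st := hm.trans s'
  have q6 : m' + m ≤ n := by
    by_contra hlt
    exact hno true ((st.2 true 0 pack_zero).mono (Subset.refl _) (by omega))
  obtain ⟨n', rfl⟩ := Nat.exists_eq_add_of_le' q6
  have hno' : ∀ β, ¬ Pack G (fun x y => c x y = β) (R' ∪ B' ∪ C') n' :=
    fun β hp => hno β (st.2 β _ hp)
  have q7 : R'.card < k * n' := by
    by_contra hlt
    exact hno' true ((pack_clique g'.2.2.2.1 (not_lt.1 hlt)).mono
        (subset_union_left.trans subset_union_left) le_rfl)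
  have q8 : l < n' := lt_of_mul_lt_mul_left (lt_of_le_of_lt x1 q7) (Nat.zero_le _)
  have q9 := st.1
  have q10 := s'.1
  rw [card_union_of_disjoint hdD, card_union_of_disjoint hg.1, e1, hBc] at q10
  rw [card_univ] at q9
  have q11 : n' ≤ l + 2 * c2 + 1 := by
    by_contra hlt
    have t1 : (k + h) * (l + 2 * c2 + 2) ≤ (k + h) * n' := Nat.mul_le_mul_left _ (by omega)
    have t2 : 1 * c2 ≤ k * c2 := Nat.mul_le_mul_right _ hk1
    have t3 := Nat.zero_le (h * c2)
    have t4 := Nat.zero_le ((k + h) * m')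
    linarith
  simp only [card_empty, zero_add] at x3
  have q12 : k * C'.card ≤ l := by rw [hl]; exact Nat.mul_le_mul_left _ (by omega)
  have q13 : 1 * l ≤ k * l := Nat.mul_le_mul_right _ hk1
  have q14 : 1 * l ≤ h * l := Nat.mul_le_mul_right _ h0
  obtain ⟨C'', hC'', hnp, hle⟩ := kill hG hc C' R' B' n' g' (by rw [← hk]; linarith)
    (by rw [← hk]; linarith) (hno' true)
  rw [← hk] at hle
  refine ⟨B'.card + h * (m' + m), C'', ?_, hnp, ?_⟩
  · refine blue hh hmax hc (g'.mono (Subset.refl _) (Subset.refl _) hC'') _ ?_ ?_ ?_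
    · exact fun hp => hno' false (hp.mono (by gcongr) le_rfl)
    · have : I.card * n' ≤ I.card * (l + 2 * c2 + 1) := Nat.mul_le_mul_left _ q11
      have : I.card * (2 * c2 + 1) ≤ l := by rw [hl]; exact Nat.mul_le_mul_right _ (by omega)
      have : (I.card + 1) * l ≤ k * l := Nat.mul_le_mul_right _ (by omega)
      linarith
    · have := card_le_card hC''
      omega
  · have := card_union_le (R' ∪ B') C'
    have := card_union_le R' B'
    linarith

end Pool.Agent.H.C044
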