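import Pool.Agent.H.MP_c044fe_co.C

set_option autoImplicit false

namespace Pool.Agent.H.C044

open Finset

variable {U V : Type}

theorem main0 [Fintype U] [DecidableEq U] [Nonempty U] (G : SimpleGraph U)
    (hG : ∀ u, ∃ v, G.Adj u v) :
    ∃ n0 : ℕ, ∀ n, n0 ≤ n → ∀ (N : ℕ) (c : Fin N → Fin N → Bool), (∀ x y, c x y = c y x) →
      (∀ β, ¬ Pack G (fun x y => c x y = β) univ n) →
      ∀ (m : ℕ) (F : Fin m → Fin m → Prop),
        (∀ c' : Fin m → Fin m → Bool, (∀ x y, c' x y = c' y x) →
          ∃ β, Pack G (fun x y => F x y ∧ c' x y = β) univ n) →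
        Pack G F univ ((N + 1) / Fintype.card U) := by
  classical
  have hk : 0 < Fintype.card U := Fintype.card_pos
  obtain ⟨I, hI, hmax⟩ := exists_max_image
    (univ.filter (fun J : Finset U => ∀ u ∈ J, ∀ v ∈ J, ¬ G.Adj u v)) card ⟨∅, by simp⟩
  have hI' := (mem_filter.1 hI).2
  have hmax' : ∀ J : Finset U, (∀ u ∈ J, ∀ v ∈ J, ¬ G.Adj u v) → J.card ≤ I.card :=
    fun J hJ => hmax J (mem_filter.2 ⟨mem_univ _, hJ⟩)
  have hlt : I.card < Fintype.card U := by
    rw [← card_univ]
    refine card_lt_card ⟨subset_univ _, fun h => ?_⟩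
    obtain ⟨u⟩ := ‹Nonempty U›
    obtain ⟨v, hv⟩ := hG u
    exact hI' u (h (mem_univ _)) v (h (mem_univ _)) hv
  obtain ⟨h, hh, h0⟩ : ∃ h, I.card + h = Fintype.card U ∧ 0 < h :=
    ⟨Fintype.card U - I.card, by omega, by omega⟩
  obtain ⟨K, hK⟩ := nocore G hk (Fintype.card U)
  obtain ⟨c2, hc2⟩ : ∃ c2, c2 = (Fintype.card U + 1) * K := ⟨_, rfl⟩
  obtain ⟨l, hl⟩ : ∃ l, l = Fintype.card U * (2 * c2 + 1) := ⟨_, rfl⟩
  obtain ⟨K', hK'⟩ := nocore G hk (Fintype.card U * (l + c2))
  refine ⟨K' + 1, fun n hn N c hc hno m F hF => ?_⟩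
  have key : ∃ (c : Fin N → Fin N → Bool) (b : ℕ) (C : Finset (Fin N)), (∀ x y, c x y = c y x) ∧
      BlueOk G c n b C ∧ NoPiece G c C ∧ N + 1 ≤ Fintype.card U * n + b + C.card := by
    by_cases hN : (Fintype.card U + h) * n ≤ N + 1
    · have hcore : ∃ β, Core c (Fintype.card U * (l + c2)) β univ := by
        by_contra hcon
        push Not at hcon
        obtain ⟨β, p, hp, hp2⟩ := hK' _ c hc univ hcon
        have : p + 1 ≤ n := by
          by_contra hlt
          exact hno β (hp.mono (Subset.refl _) (by omega))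
        have t1 : Fintype.card U * (p + 1) ≤ Fintype.card U * n := Nat.mul_le_mul_left _ this
        have t2 : 1 * n ≤ h * n := Nat.mul_le_mul_right _ h0
        rw [card_univ, Fintype.card_fin] at hp2
        linarith
      obtain ⟨β, hβ⟩ := hcore
      cases β
      · have hc' : ∀ x y, (!c x y) = !c y x := fun x y => by rw [hc]
        obtain ⟨b, C, a1, a2, a3⟩ := structure_red (c := fun x y => !c x y) hG hc' hI' hh h0 hmax'
          (hK _ _ hc') (n := n) (fun β hp => hno (!β) (by
            obtain ⟨f, f1, f2, f3⟩ := hp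
            exact ⟨f, f1, f2, fun j u v huv => by simpa using f3 j u v huv⟩))
          (by simpa using hN) c2 l hc2 hl (by
            obtain ⟨R, r1, B, r2, r3, r4, r5, r6, r7, r8⟩ := hβ
            exact ⟨R, r1, B, r2, r3, r4, r5, fun x a y b e => by simpa using r6 x a y b e,
              fun x a y b e => by simpa using r7 x a y b e,
              fun x a y b => by simpa using r8 x a y b⟩)
        exact ⟨_, b, C, hc', a1, a2, by simpa using a3⟩
      · obtain ⟨b, C, a1, a2, a3⟩ := structure_red hG hc hI' hh h0 hmax'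
          (hK _ _ hc) hno (by simpa using hN) c2 l hc2 hl hβ
        exact ⟨_, b, C, hc, a1, a2, by simpa using a3⟩
    · have t2 : 1 * n ≤ h * n := Nat.mul_le_mul_right _ h0
      refine ⟨c, h * n - 1, ∅, hc, blue_triv hh hmax' (by omega), ?_, ?_⟩
      · intro l hl hcol u
        by_contra hu
        obtain ⟨u, v, huv⟩ := piece_c hG hcol hu
        simpa using hl.1 _ _ huv
      · rw [add_mul] at hN; simp only [card_empty]; omega
  obtain ⟨c', b, C, a0, a1, a2, a3⟩ := key
  refine (fside' a0 (by omega) a1 a2 F hF ((b + C.card) / Fintype.card U)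
    (Nat.mul_div_le _ _)).mono (Subset.refl _) ?_
  rw [← Nat.add_mul_div_left _ _ hk]
  exact Nat.div_le_div_right (by omega)

theorem Pack.restrict {G : SimpleGraph U} {E : V → V → Prop} {S : Finset V} {t : ℕ}
    (h : Pack G E S t) (Q : U → Prop) :
    Pack (G.comap (Subtype.val : {u // Q u} → U)) E S t := by
  obtain ⟨f, f1, f2, f3⟩ := h
  refine ⟨fun p => f (p.1, p.2.1), ?_, fun p => f2 _, fun j u v huv => f3 j _ _ huv⟩
  intro p q h
  have := f1 h
  simp only [Prod.mk.injEq] at this
  exact Prod.ext this.1 (Subtype.ext this.2)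

theorem Pack.extend [Fintype U] [Fintype V] [DecidableEq V] {G : SimpleGraph U}
    {E : V → V → Prop} {t : ℕ}
    (h : Pack (G.comap (Subtype.val : {u // ∃ v, G.Adj u v} → U)) E univ t)
    (ht : Fintype.card U * t ≤ Fintype.card V) : Pack G E univ t := by
  classical
  obtain ⟨f, f1, -, f3⟩ := h
  let l : Fin t × U → Lab V := fun p =>
    if h : ∃ v, G.Adj p.2 v then .c (f (p.1, ⟨p.2, h⟩)) else .a
  obtain ⟨g, g1, -, -, g4⟩ := realize (R := (univ.image f)ᶜ) (B := ∅) (C := univ.image f) l
    ⟨fun p v h => by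
      simp only [l] at h
      split_ifs at h with a
      cases h
      exact mem_image_of_mem _ (mem_univ _),
     fun p q v a b => by
      simp only [l] at a b
      split_ifs at a with a1
      split_ifs at b with b1
      injection a with a; injection b with b
      have := f1 (a.trans b.symm)
      simp only [Prod.mk.injEq, Subtype.mk.injEq] at this
      exact Prod.ext this.1 this.2⟩ (by simp) disjoint_compl_right (by simp)
    (by
      rw [card_compl, card_image_of_injective _ f1, cnt_prod]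
      have : ∀ j : Fin t, (univ.filter (fun u : U => l (j, u) = .a)).card =
          Fintype.card U - Fintype.card {u // ∃ v, G.Adj u v} := by
        intro j
        rw [← Fintype.card_subtype_compl, Fintype.card_subtype]
        congr 1
        ext u
        by_cases hu : ∃ v, G.Adj u v <;> simp [l, hu]
      simp only [this, sum_const, card_univ, Fintype.card_fin, smul_eq_mul, Fintype.card_prod]
      rw [Nat.mul_sub, mul_comm t]
      omega)
    (by
      rw [card_empty, Nat.le_zero, card_eq_zero, filter_eq_empty_iff]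
      intro p _
      simp only [l]
      split_ifs <;> simp)
  refine ⟨g, g1, fun p => mem_univ _, fun j u v huv => ?_⟩
  have hu : ∃ w, G.Adj u w := ⟨v, huv⟩
  have hv : ∃ w, G.Adj v w := ⟨u, huv.symm⟩
  rw [g4 (j, u) (f (j, ⟨u, hu⟩)) (by simp [l, hu]), g4 (j, v) (f (j, ⟨v, hv⟩)) (by simp [l, hv])]
  exact f3 j _ _ huv

theorem main1 [Fintype U] [DecidableEq U] (G : SimpleGraph U) (hk : 0 < Fintype.card U) :
    ∃ n0 : ℕ, ∀ n, n0 ≤ n → ∀ (N : ℕ) (c : Fin N → Fin N → Bool), (∀ x y, c x y = c y x) →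
      (∀ β, ¬ Pack G (fun x y => c x y = β) univ n) →
      ∀ (m : ℕ) (F : Fin m → Fin m → Prop), N + 1 ≤ m →
        (∀ c' : Fin m → Fin m → Bool, (∀ x y, c' x y = c' y x) →
          ∃ β, Pack G (fun x y => F x y ∧ c' x y = β) univ n) →
        Pack G F univ ((N + 1) / Fintype.card U) := by
  classical
  have small : ∀ n N : ℕ, N < Fintype.card U * n → ∀ (m : ℕ) (F : Fin m → Fin m → Prop),
        (∀ c' : Fin m → Fin m → Bool, (∀ x y, c' x y = c' y x) →
          ∃ β, Pack G (fun x y => F x y ∧ c' x y = β) univ n) →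
        Pack G F univ ((N + 1) / Fintype.card U) := by
    intro n N hN m F hF
    obtain ⟨β, f, f1, f2, f3⟩ := hF (fun _ _ => true) (fun _ _ => rfl)
    have : Pack G F univ n := ⟨f, f1, f2, fun j u v huv => (f3 j u v huv).1⟩
    exact this.mono (Subset.refl _) (Nat.div_le_of_le_mul (by omega))
  by_cases hne : Nonempty {u // ∃ v, G.Adj u v}
  · obtain ⟨n0, h0⟩ := main0 (G.comap (Subtype.val : {u // ∃ v, G.Adj u v} → U))
      (fun ⟨u, v, huv⟩ => ⟨⟨v, u, huv.symm⟩, huv⟩)
    refine ⟨n0, fun n hn N c hc hno m F hm hF => ?_⟩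
    by_cases hN : N < Fintype.card U * n
    · exact small n N hN m F hF
    · have := h0 n hn N c hc (fun β hp => hno β (hp.extend (by simpa using hN))) m F
        (fun c' hc' => by
          obtain ⟨β, hβ⟩ := hF c' hc'
          exact ⟨β, hβ.restrict _⟩)
      refine Pack.extend (this.mono (Subset.refl _) ?_) ?_
      · exact Nat.div_le_div_left (Fintype.card_subtype_le _) Fintype.card_pos
      · rw [Fintype.card_fin]; exact (Nat.mul_div_le _ _).trans hm
  · refine ⟨0, fun n hn N c hc hno m F hm hF => ?_⟩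
    by_cases hN : N < Fintype.card U * n
    · exact small n N hN m F hF
    · exfalso
      refine hno true (Pack.extend ?_ (by simpa using hN))
      exact ⟨fun p => (hne ⟨p.2⟩).elim, fun p => (hne ⟨p.2⟩).elim, fun p => (hne ⟨p.2⟩).elim,
        fun j u => (hne ⟨u⟩).elim⟩

theorem pack_iff [Fintype V] {G : SimpleGraph U} {E : V → V → Prop} {t : ℕ} :
    Pack G E univ t ↔ ∃ f : Fin t × U → V, Function.Injective f ∧
      ∀ p q : Fin t × U, p.1 = q.1 → G.Adj p.2 q.2 → E (f p) (f q) := by
  constructor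
  · rintro ⟨f, f1, -, f3⟩
    refine ⟨f, f1, ?_⟩
    rintro ⟨j, u⟩ ⟨j', v⟩ h huv
    simp only at h huv
    subst h
    exact f3 j u v huv
  · rintro ⟨f, f1, f3⟩
    exact ⟨f, f1, fun _ => mem_univ _, fun j u v huv => f3 (j, u) (j, v) rfl huv⟩

end Pool.Agent.H.C044
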